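import Pool.Agent.Lib.MP_8bd676_co_HC.Defs

/-! MP_8bd676_co, project HC: optimal configurations exist. -/

set_option autoImplicit false

open scoped RealInnerProductSpace

namespace Pool.Agent.HC

theorem IsCode.mono {n : ℕ} {δ ε : ℝ} {p : Fin n → E3} (h : IsCode δ p) (he : ε ≤ δ) :
    IsCode ε p := ⟨h.1, fun i j hij => he.trans (h.2 i j hij)⟩

/-- A code of at least two points has distance at most two. -/
theorem IsCode.le_two {n : ℕ} (hn : 2 ≤ n) {δ : ℝ} {p : Fin n → E3} (h : IsCode δ p) : δ ≤ 2 := by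
  have hij : (⟨0, by omega⟩ : Fin n) ≠ ⟨1, by omega⟩ := by
    intro h'
    have := congrArg Fin.val h'
    simp at this
  refine (h.2 _ _ hij).trans ?_
  rw [dist_eq_norm]
  refine (norm_sub_le _ _).trans ?_
  rw [h.1, h.1]
  norm_num

/-- `d(n)` is an upper bound. -/
theorem le_sep {n : ℕ} (hn : 2 ≤ n) {δ : ℝ} {p : Fin n → E3} (h : IsCode δ p) : δ ≤ sep n := by
  refine le_csSup ⟨2, ?_⟩ ⟨p, h⟩
  rintro ε ⟨q, hq⟩
  exact IsCode.le_two hn hq

private noncomputable def AttPairs (n : ℕ) : Finset (Fin n × Fin n) :=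
  Finset.univ.filter fun ij => ij.1 ≠ ij.2

private theorem AttPairs_nonempty {n : ℕ} (hn : 2 ≤ n) : (AttPairs n).Nonempty := by
  refine ⟨(⟨0, by omega⟩, ⟨1, by omega⟩), ?_⟩
  unfold AttPairs
  rw [Finset.mem_filter]
  refine ⟨Finset.mem_univ _, ?_⟩
  intro h'
  have := congrArg Fin.val h'
  simp at this

private noncomputable def AttMin {n : ℕ} (hn : 2 ≤ n) (p : Fin n → E3) : ℝ :=
  (AttPairs n).inf' (AttPairs_nonempty hn) fun ij => dist (p ij.1) (p ij.2)

private theorem AttMin_continuous {n : ℕ} (hn : 2 ≤ n) : Continuous (AttMin hn) := by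
  unfold AttMin
  refine Continuous.finset_inf'_apply (AttPairs_nonempty hn) fun ij _ => ?_
  exact (continuous_apply ij.1).dist (continuous_apply ij.2)

private theorem AttMin_code {n : ℕ} (hn : 2 ≤ n) {p : Fin n → E3} (hp : ∀ i, ‖p i‖ = 1) :
    IsCode (AttMin hn p) p := by
  refine ⟨hp, fun i j hij => ?_⟩
  unfold AttMin
  exact Finset.inf'_le (fun ij : Fin n × Fin n => dist (p ij.1) (p ij.2))
    (b := (i, j)) (Finset.mem_filter.2 ⟨Finset.mem_univ _, hij⟩)

private theorem AttMin_ge {n : ℕ} (hn : 2 ≤ n) {p : Fin n → E3} {δ : ℝ} (h : IsCode δ p) :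
    δ ≤ AttMin hn p := by
  unfold AttMin
  refine Finset.le_inf' _ _ fun ij hij => ?_
  exact h.2 _ _ (Finset.mem_filter.1 hij).2

/-- `d(n)` is attained. -/
theorem exists_opt {n : ℕ} (hn : 2 ≤ n) : ∃ p : Fin n → E3, IsCode (sep n) p := by
  obtain ⟨Z, hZ⟩ : ∃ Z : Set (Fin n → E3), Z = Set.pi Set.univ fun _ => Metric.sphere (0 : E3) 1 :=
    ⟨_, rfl⟩
  have hZc : IsCompact Z := by
    rw [hZ]
    exact isCompact_univ_pi fun _ => isCompact_sphere 0 1
  have hmem : ∀ p : Fin n → E3, p ∈ Z ↔ ∀ i, ‖p i‖ = 1 := by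
    intro p
    rw [hZ]
    simp [Set.mem_pi]
  have hZn : Z.Nonempty := by
    refine ⟨fun _ => EuclideanSpace.single 0 1, ?_⟩
    rw [hmem]
    intro i
    simp
  obtain ⟨p, hpZ, hpm⟩ := hZc.exists_isMaxOn hZn (AttMin_continuous hn).continuousOn
  have hp : ∀ i, ‖p i‖ = 1 := (hmem p).1 hpZ
  refine ⟨p, ?_⟩
  have h1 : sep n ≤ AttMin hn p := by
    refine csSup_le ⟨_, p, AttMin_code hn hp⟩ ?_
    rintro δ ⟨q, hq⟩
    exact (AttMin_ge hn hq).trans (hpm ((hmem q).2 hq.1))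
  exact (AttMin_code hn hp).mono h1

/-- `d(n) > 0`. -/
theorem sep_pos {n : ℕ} (hn : 2 ≤ n) : 0 < sep n := by
  obtain ⟨p, hp⟩ : ∃ p : ℕ → E3, p = fun k : ℕ =>
      (WithLp.toLp 2 ![Real.cos (1 / ((k : ℝ) + 1)), Real.sin (1 / ((k : ℝ) + 1)), 0] : E3) :=
    ⟨_, rfl⟩
  have hu : ∀ k, ‖p k‖ = 1 := by
    intro k
    rw [hp, EuclideanSpace.norm_eq]
    simp [Fin.sum_univ_three]
  have hinj : Function.Injective p := by
    intro k l hkl
    have h1 : Real.sin (1 / ((k : ℝ) + 1)) = Real.sin (1 / ((l : ℝ) + 1)) := by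
      have h2 := congrArg (fun v : E3 => v 1) hkl
      simpa [hp] using h2
    have hr : ∀ m : ℕ, (1 / ((m : ℝ) + 1)) ∈ Set.Icc (-(Real.pi / 2)) (Real.pi / 2) := by
      intro m
      have h3 : (0 : ℝ) < 1 / ((m : ℝ) + 1) := by positivity
      have h4 : 1 / ((m : ℝ) + 1) ≤ 1 := by
        rw [div_le_one (by positivity)]
        linarith [(Nat.cast_nonneg m : (0 : ℝ) ≤ m)]
      have h5 := Real.pi_gt_three
      constructor <;> linarith
    have h6 := Real.injOn_sin (hr k) (hr l) h1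
    have h7 : (k : ℝ) + 1 = (l : ℝ) + 1 := by
      have h8 : ((k : ℝ) + 1) ≠ 0 := by positivity
      have h9 : ((l : ℝ) + 1) ≠ 0 := by positivity
      field_simp at h6
      linarith
    exact_mod_cast (add_right_cancel h7)
  obtain ⟨q, hq⟩ : ∃ q : Fin n → E3, q = fun i : Fin n => p (i : ℕ) := ⟨_, rfl⟩
  have hqu : ∀ i, ‖q i‖ = 1 := by
    intro i
    rw [hq]
    exact hu _
  have hpos : 0 < AttMin hn q := by
    unfold AttMin
    rw [Finset.lt_inf'_iff]
    intro ij hij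
    have h1 := (Finset.mem_filter.1 hij).2
    rw [dist_pos, hq]
    intro h2
    exact h1 (Fin.ext (hinj h2))
  exact hpos.trans_le (le_sep hn (AttMin_code hn hqu))

end Pool.Agent.HC
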