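import Pool.Agent.Lib.MP_8bd676_co_HC.Vol

/-! MP_8bd676_co, project HC: a great circle with few points next to it. -/

set_option autoImplicit false

open MeasureTheory
open scoped RealInnerProductSpace

namespace Pool.Agent.HC

private def BB (u : E3) (s : ℝ) : Set E3 :=
  {x : E3 | ‖x‖ < 1 ∧ 0 ≤ ⟪u, x⟫ ∧ ⟪u, x⟫ ≤ s * ‖x‖}

private lemma meas_inner (u : E3) : Measurable fun x : E3 => ⟪u, x⟫ :=
  (continuous_const.inner continuous_id).measurable

private lemma meas_BB (u : E3) (s : ℝ) : MeasurableSet (BB u s) := by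
  have h1 : MeasurableSet {x : E3 | ‖x‖ < 1} := measurableSet_lt measurable_norm measurable_const
  have h2 : MeasurableSet {x : E3 | 0 ≤ ⟪u, x⟫} := measurableSet_le measurable_const (meas_inner u)
  have h3 : MeasurableSet {x : E3 | ⟪u, x⟫ ≤ s * ‖x‖} :=
    measurableSet_le (meas_inner u) (measurable_norm.const_mul s)
  exact h1.inter (h2.inter h3)

private lemma meas_cone (u : E3) (c : ℝ) : MeasurableSet {p : E3 | ‖p‖ < 1 ∧ c * ‖p‖ < ⟪u, p⟫} := by
  have h1 : MeasurableSet {x : E3 | ‖x‖ < 1} := measurableSet_lt measurable_norm measurable_const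
  have h3 : MeasurableSet {x : E3 | c * ‖x‖ < ⟪u, x⟫} :=
    measurableSet_lt (measurable_norm.const_mul c) (meas_inner u)
  exact h1.inter h3

private lemma vol_ball : volume {x : E3 | ‖x‖ < 1} = ENNReal.ofReal (4 * Real.pi / 3) := by
  have h1 : {x : E3 | ‖x‖ < 1} = Metric.ball (0 : E3) 1 := by
    ext x
    simp
  rw [h1, EuclideanSpace.volume_ball_fin_three]
  rw [ENNReal.ofReal_one, one_pow, one_mul]
  congr 1
  ring

private lemma vol_BB {u : E3} (hu : ‖u‖ = 1) {s : ℝ} (h0 : 0 ≤ s) (h1 : s ≤ 1) :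
    volume (BB u s) ≤ ENNReal.ofReal (2 * Real.pi / 3 * s) := by
  have hpi := Real.pi_pos
  have e1 := cone_vol (u := -u) (by rw [norm_neg, hu]) (c := 0) le_rfl zero_le_one
  have e2 := cone_vol hu h0 h1
  have hd1 : Disjoint (BB u s) ({p : E3 | ‖p‖ < 1 ∧ 0 * ‖p‖ < ⟪-u, p⟫} ∪
      {p : E3 | ‖p‖ < 1 ∧ s * ‖p‖ < ⟪u, p⟫}) := by
    rw [Set.disjoint_left]
    rintro x ⟨_, hx1, hx2⟩ (⟨_, hx3⟩ | ⟨_, hx3⟩)
    · rw [inner_neg_left, zero_mul] at hx3
      linarith
    · linarith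
  have hd2 : Disjoint {p : E3 | ‖p‖ < 1 ∧ 0 * ‖p‖ < ⟪-u, p⟫}
      {p : E3 | ‖p‖ < 1 ∧ s * ‖p‖ < ⟪u, p⟫} := by
    rw [Set.disjoint_left]
    rintro x ⟨_, hx1⟩ ⟨_, hx3⟩
    rw [inner_neg_left, zero_mul] at hx1
    have := mul_nonneg h0 (norm_nonneg x)
    linarith
  have h3 : volume (BB u s ∪ ({p : E3 | ‖p‖ < 1 ∧ 0 * ‖p‖ < ⟪-u, p⟫} ∪
      {p : E3 | ‖p‖ < 1 ∧ s * ‖p‖ < ⟪u, p⟫})) ≤ volume {x : E3 | ‖x‖ < 1} := by
    apply measure_mono
    rintro x (⟨hx, _⟩ | ⟨hx, _⟩ | ⟨hx, _⟩) <;> exact hx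
  rw [measure_union hd1 ((meas_cone _ _).union (meas_cone _ _)),
    measure_union hd2 (meas_cone _ _), e1, e2, vol_ball,
    ← ENNReal.ofReal_add (by nlinarith) (by nlinarith)] at h3
  have hfin : volume (BB u s) ≠ ⊤ := by
    intro h
    rw [h, top_add] at h3
    exact absurd (top_le_iff.1 h3) ENNReal.ofReal_ne_top
  rw [← ENNReal.ofReal_toReal hfin, ← ENNReal.ofReal_add ENNReal.toReal_nonneg (by nlinarith),
    ENNReal.ofReal_le_ofReal_iff (by positivity)] at h3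
  rw [← ENNReal.ofReal_toReal hfin]
  apply ENNReal.ofReal_le_ofReal
  linarith

private lemma band_aux {n : ℕ} (p : Fin n → E3) (hp : ∀ i, ‖p i‖ = 1) {s : ℝ} (hs : 0 ≤ s)
    (hs1 : s ≤ 1) :
    ∃ N : E3, ‖N‖ = 1 ∧
      ((Finset.univ.filter (fun i => 0 ≤ ⟪p i, N⟫ ∧ ⟪p i, N⟫ ≤ s)).card : ℝ) ≤ n * s / 2 := by
  classical
  have hpi := Real.pi_pos
  by_contra hcon
  push Not at hcon
  obtain ⟨k, hk⟩ : ∃ k, k = ⌊(n : ℝ) * s / 2⌋₊ + 1 := ⟨_, rfl⟩
  have hns : 0 ≤ (n : ℝ) * s / 2 := by positivity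
  have hk1 : (n : ℝ) * s / 2 < k := by
    rw [hk]
    push_cast
    exact Nat.lt_floor_add_one _
  have hcard : ∀ N : E3, ‖N‖ = 1 →
      k ≤ (Finset.univ.filter (fun i => 0 ≤ ⟪p i, N⟫ ∧ ⟪p i, N⟫ ≤ s)).card := by
    intro N hN
    rw [hk]
    exact (Nat.floor_lt hns).2 (hcon N hN)
  have hpt : ∀ x : E3, ({x : E3 | ‖x‖ < 1} \ {0}).indicator (fun _ => (k : ENNReal)) x ≤
      ∑ i : Fin n, (BB (p i) s).indicator (1 : E3 → ENNReal) x := by
    intro x
    by_cases hx : x ∈ {x : E3 | ‖x‖ < 1} \ {0}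
    · rw [Set.indicator_of_mem hx]
      have hx0 : x ≠ 0 := fun h => hx.2 h
      have hxn : 0 < ‖x‖ := norm_pos_iff.2 hx0
      have hN : ‖(‖x‖⁻¹ • x : E3)‖ = 1 := by
        rw [norm_smul, norm_inv, norm_norm, inv_mul_cancel₀ hxn.ne']
      have h1 := hcard _ hN
      have h2 : (Finset.univ.filter (fun i => 0 ≤ ⟪p i, (‖x‖⁻¹ • x : E3)⟫ ∧
          ⟪p i, (‖x‖⁻¹ • x : E3)⟫ ≤ s)) = Finset.univ.filter (fun i => x ∈ BB (p i) s) := by
        refine Finset.filter_congr fun i _ => ?_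
        rw [real_inner_smul_right]
        constructor
        · rintro ⟨h3, h4⟩
          refine ⟨hx.1, ?_, ?_⟩
          · by_contra h5
            push Not at h5
            have := mul_neg_of_pos_of_neg (inv_pos.2 hxn) h5
            linarith
          · rw [inv_mul_le_iff₀ hxn] at h4
            linarith
        · rintro ⟨_, h3, h4⟩
          refine ⟨by positivity, ?_⟩
          rw [inv_mul_le_iff₀ hxn]
          linarith
      rw [h2] at h1
      calc (k : ENNReal) ≤ ((Finset.univ.filter (fun i => x ∈ BB (p i) s)).card : ENNReal) := by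
            exact_mod_cast h1
        _ = ∑ i : Fin n, (BB (p i) s).indicator (1 : E3 → ENNReal) x := by
            rw [Finset.card_filter]
            push_cast
            refine Finset.sum_congr rfl fun i _ => ?_
            by_cases hi : x ∈ BB (p i) s
            · rw [if_pos hi, Set.indicator_of_mem hi, Pi.one_apply]
            · rw [if_neg hi, Set.indicator_of_notMem hi]
    · rw [Set.indicator_of_notMem hx]
      exact bot_le
  have h1 := lintegral_mono (μ := (volume : Measure E3)) hpt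
  have hU : MeasurableSet ({x : E3 | ‖x‖ < 1} \ {0}) :=
    (measurableSet_lt measurable_norm measurable_const).diff (measurableSet_singleton 0)
  rw [lintegral_indicator_const hU, lintegral_finsetSum _ (fun i _ =>
    (measurable_one.indicator (meas_BB (p i) s)))] at h1
  simp only [lintegral_indicator_one (meas_BB _ s)] at h1
  rw [measure_sdiff_null (by simp), vol_ball] at h1
  have h2 : ∑ i : Fin n, volume (BB (p i) s) ≤
      ∑ _i : Fin n, ENNReal.ofReal (2 * Real.pi / 3 * s) :=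
    Finset.sum_le_sum fun i _ => vol_BB (hp i) hs hs1
  rw [Finset.sum_const, Finset.card_univ, Fintype.card_fin, nsmul_eq_mul] at h2
  have h3 := h1.trans h2
  rw [← ENNReal.ofReal_natCast, ← ENNReal.ofReal_natCast, ← ENNReal.ofReal_mul (by positivity),
    ← ENNReal.ofReal_mul (by positivity), ENNReal.ofReal_le_ofReal_iff (by positivity)] at h3
  have h4 : (k : ℝ) ≤ n * s / 2 := by
    have h5 : (k : ℝ) * (4 * Real.pi / 3) ≤ (n * s / 2) * (4 * Real.pi / 3) := by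
      linarith
    exact le_of_mul_le_mul_right h5 (by positivity)
  linarith

/-- Some great circle has few points close to it on one side. -/
theorem exists_band {n : ℕ} (p : Fin n → E3) (hp : ∀ i, ‖p i‖ = 1) {s : ℝ} (hs : 0 ≤ s) :
    ∃ N : E3, ‖N‖ = 1 ∧
      ((Finset.univ.filter (fun i => 0 ≤ ⟪p i, N⟫ ∧ ⟪p i, N⟫ ≤ s)).card : ℝ) ≤ n * s / 2 := by
  rcases le_or_gt s 1 with h | h
  · exact band_aux p hp hs h
  · obtain ⟨N, hN, h1⟩ := band_aux p hp zero_le_one le_rfl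
    refine ⟨N, hN, ?_⟩
    have h2 : (Finset.univ.filter (fun i => 0 ≤ ⟪p i, N⟫ ∧ ⟪p i, N⟫ ≤ s)) ⊆
        Finset.univ.filter (fun i => 0 ≤ ⟪p i, N⟫ ∧ ⟪p i, N⟫ ≤ 1) := by
      intro i hi
      rw [Finset.mem_filter] at hi ⊢
      refine ⟨hi.1, hi.2.1, ?_⟩
      have h3 := real_inner_le_norm (p i) N
      rw [hp i, hN, one_mul] at h3
      exact h3
    have h3 : ((Finset.univ.filter (fun i => 0 ≤ ⟪p i, N⟫ ∧ ⟪p i, N⟫ ≤ s)).card : ℝ) ≤
        ((Finset.univ.filter (fun i => 0 ≤ ⟪p i, N⟫ ∧ ⟪p i, N⟫ ≤ 1)).card : ℝ) := by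
      exact_mod_cast Finset.card_le_card h2
    have h4 : (n : ℝ) * 1 / 2 ≤ n * s / 2 := by
      have : (0 : ℝ) ≤ n := Nat.cast_nonneg n
      nlinarith
    linarith

end Pool.Agent.HC
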