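import Pool.Agent.Lib.MP_8bd676_co_HC.Main

/-! MP_8bd676_co, project HC: counting the strict inequalities. -/

set_option autoImplicit false

open scoped RealInnerProductSpace

namespace Pool.Agent.HC

/-- A strict decrease between `m` and `n` occurs at a single step. -/
theorem exists_step {m n : ℕ} (hmn : m < n) (h : sep n < sep m) :
    ∃ k, m < k ∧ k ≤ n ∧ sep k < sep (k - 1) := by
  by_contra hcon
  push Not at hcon
  have key : ∀ k, m ≤ k → k ≤ n → sep m ≤ sep k := by
    intro k hk
    induction k, hk using Nat.le_induction with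
    | base => intro _; exact le_rfl
    | succ k hk ih =>
      intro hkn
      have h1 := hcon (k + 1) (by omega) hkn
      rw [Nat.add_sub_cancel] at h1
      exact (ih (by omega)).trans h1
  exact absurd (key n hmn.le le_rfl) (not_le.mpr h)

/-- The set of `n` with `3 ≤ n ≤ N` and `d(n) < d(n-1)`. -/
noncomputable def strict (N : ℕ) : Finset ℕ :=
  (Finset.Icc 3 N).filter (fun n => sep n < sep (n - 1))

theorem strict_card (N : ℕ) : √(N : ℝ) / 2 - 2 ≤ ((strict N).card : ℝ) := by
  induction N using Nat.strong_induction_on with
  | _ N ih =>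
    rcases le_or_gt N 16 with hN | hN
    · have h1 : √(N : ℝ) ≤ 4 := by
        rw [Real.sqrt_le_left (by norm_num)]
        have : (N : ℝ) ≤ 16 := by exact_mod_cast hN
        linarith
      have h2 : (0:ℝ) ≤ (strict N).card := Nat.cast_nonneg _
      linarith
    · have hNr : (16 : ℝ) < N := by exact_mod_cast hN
      have hs4 : 4 < √(N : ℝ) := by
        rw [Real.lt_sqrt (by norm_num)]; linarith
      have hss : √(N : ℝ) * √(N : ℝ) = N := Real.mul_self_sqrt (by positivity)
      have hx0 : 0 ≤ (N : ℝ) - 2 * √(N : ℝ) := by nlinarith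
      set M := ⌊(N : ℝ) - 2 * √(N : ℝ)⌋₊ with hM
      have hM1 : (M : ℝ) ≤ N - 2 * √(N : ℝ) := Nat.floor_le hx0
      have hM2 : (N : ℝ) - 2 * √(N : ℝ) < M + 1 := Nat.lt_floor_add_one _
      have hMN : M < N := by
        have : (M : ℝ) < N := by linarith
        exact_mod_cast this
      have hM3 : 2 ≤ M := by
        have : (2 : ℝ) ≤ M := by
          by_contra hc
          push Not at hc
          have hc2 : M ≤ 1 := by
            have : M < 2 := by exact_mod_cast hc
            omega
          have hc3 : (M : ℝ) ≤ 1 := by exact_mod_cast hc2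
          nlinarith
        exact_mod_cast this
      have hlt := sep_lt hM3 (by linarith) hMN
      obtain ⟨k, hk1, hk2, hk3⟩ := exists_step hMN hlt
      have hsub : insert k (strict M) ⊆ strict N := by
        intro x hx
        rw [Finset.mem_insert] at hx
        unfold strict at hx ⊢
        rw [Finset.mem_filter, Finset.mem_Icc] at hx ⊢
        rcases hx with rfl | ⟨⟨h1, h2⟩, h3⟩
        · exact ⟨⟨by omega, hk2⟩, hk3⟩
        · exact ⟨⟨h1, by omega⟩, h3⟩
      have hnot : k ∉ strict M := by
        unfold strict
        rw [Finset.mem_filter, Finset.mem_Icc]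
        rintro ⟨⟨_, h2⟩, _⟩
        omega
      have hc1 := Finset.card_le_card hsub
      rw [Finset.card_insert_of_notMem hnot] at hc1
      have hc2 : ((strict M).card : ℝ) + 1 ≤ (strict N).card := by exact_mod_cast hc1
      have hsM : √(N : ℝ) - 2 ≤ √(M : ℝ) := by
        apply Real.le_sqrt_of_sq_le
        nlinarith
      have := ih M hMN
      linarith

end Pool.Agent.HC
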