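import Mathlib

/-! Robinson's question on the sphere (MP_8bd676_co), project HC: definitions. -/

set_option autoImplicit false

open scoped RealInnerProductSpace

namespace Pool.Agent.HC

/-- Euclidean three-space. -/
abbrev E3 : Type := EuclideanSpace ℝ (Fin 3)

/-- `n` unit vectors with pairwise distances at least `δ`. -/
def IsCode {n : ℕ} (δ : ℝ) (p : Fin n → E3) : Prop :=
  (∀ i, ‖p i‖ = 1) ∧ ∀ i j, i ≠ j → δ ≤ dist (p i) (p j)

/-- The number `d(n)`: the best possible minimum distance among `n` points of the unit sphere. -/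
noncomputable def sep (n : ℕ) : ℝ := sSup {δ : ℝ | ∃ p : Fin n → E3, IsCode δ p}

end Pool.Agent.HC
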