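import Pool.Agent.Lib.MP_8bd676_co_HC.Defs

/-! MP_8bd676_co, project HC: the motion that opens a half great circle. -/

set_option autoImplicit false

open scoped RealInnerProductSpace Topology

namespace Pool.Agent.HC

private lemma half_cot {z z' ρ ρ' : ℝ} (hρ : 0 < ρ) (hρ' : 0 < ρ') (h1 : z ^ 2 + ρ ^ 2 = 1)
    (h2 : z' ^ 2 + ρ' ^ 2 = 1) (hz : z' < z) : 0 < z * ρ' - z' * ρ := by
  have e : z ^ 2 * ρ' ^ 2 - z' ^ 2 * ρ ^ 2 = z ^ 2 - z' ^ 2 := by
    have h3 : ρ ^ 2 = 1 - z ^ 2 := by linarith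
    have h4 : ρ' ^ 2 = 1 - z' ^ 2 := by linarith
    rw [h3, h4]; ring
  rcases le_or_gt 0 z' with h | h
  · have h5 : (z' * ρ) ^ 2 < (z * ρ') ^ 2 := by nlinarith
    have hz0 : 0 < z := lt_of_le_of_lt h hz
    have h6 := abs_lt_of_sq_lt_sq h5 (by positivity)
    have := (abs_lt.mp h6).2
    linarith
  · rcases le_or_gt 0 z with h0 | h0
    · have h7 : 0 ≤ z * ρ' := by positivity
      have h8 : z' * ρ < 0 := mul_neg_of_neg_of_pos h hρ
      linarith
    · have h5 : (z * ρ') ^ 2 < (-(z' * ρ)) ^ 2 := by nlinarith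
      have h9 : 0 ≤ -(z' * ρ) := by
        have := mul_neg_of_neg_of_pos h hρ
        linarith
      have h6 := abs_lt_of_sq_lt_sq h5 h9
      have := (abs_lt.mp h6).1
      linarith

private lemma half_B {z z' ρ ρ' : ℝ} (hρ : 0 < ρ) (hρ' : 0 < ρ') (h1 : z ^ 2 + ρ ^ 2 = 1)
    (h2 : z' ^ 2 + ρ' ^ 2 = 1) (hz : z ≠ z') :
    z' / ρ' * (z - z' * (z * z' + ρ * ρ')) + z / ρ * (z' - z * (z * z' + ρ * ρ')) < 0 := by
  have e1 : z' / ρ' * (z - z' * (z * z' + ρ * ρ')) = z' * (z * ρ' - z' * ρ) := by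
    have : z - z' * (z * z' + ρ * ρ') = ρ' * (z * ρ' - z' * ρ) := by
      have h4 : z' ^ 2 = 1 - ρ' ^ 2 := by linarith
      linear_combination (-z) * h4
    rw [this]; field_simp
  have e2 : z / ρ * (z' - z * (z * z' + ρ * ρ')) = z * (z' * ρ - z * ρ') := by
    have : z' - z * (z * z' + ρ * ρ') = ρ * (z' * ρ - z * ρ') := by
      have h4 : z ^ 2 = 1 - ρ ^ 2 := by linarith
      linear_combination (-z') * h4
    rw [this]; field_simp
  rw [e1, e2]
  rcases lt_or_gt_of_ne hz with h | h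
  · have := half_cot hρ' hρ h2 h1 h
    nlinarith
  · have := half_cot hρ hρ' h1 h2 h
    nlinarith

private lemma half_sin {t : ℝ} (h0 : t ≠ 0) (h1 : |t| < Real.pi) : 0 < t * Real.sin t := by
  rcases lt_or_gt_of_ne h0 with h | h
  · have h2 : 0 < Real.sin (-t) := by
      rw [abs_of_neg h] at h1
      exact Real.sin_pos_of_pos_of_lt_pi (by linarith) h1
    rw [Real.sin_neg] at h2
    nlinarith
  · rw [abs_of_pos h] at h1
    exact mul_pos h (Real.sin_pos_of_pos_of_lt_pi h h1)

/-- If no minimal edge meets the closed half great circle with ends `w`, `-w` and centre `m`, then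
there is a motion that increases all minimal distances. -/
theorem half_field {n : ℕ} {δ : ℝ} (hδ : 0 < δ) {p : Fin n → E3} (h : IsCode δ p) {w m : E3}
    (hw : ‖w‖ = 1) (hm : ‖m‖ = 1) (hwm : ⟪w, m⟫ = 0)
    (hno : ∀ i j, i ≠ j → dist (p i) (p j) = δ → ∀ a b α β : ℝ, 0 ≤ a → 0 ≤ b → 0 < a + b →
      0 ≤ β → a • p i + b • p j ≠ α • w + β • m) :
    ∃ v : Fin n → E3, (∀ i, ⟪p i, v i⟫ = 0) ∧
      ∀ i j, i ≠ j → dist (p i) (p j) = δ → ⟪p i, v j⟫ + ⟪p j, v i⟫ < 0 := by
  -- the frame
  obtain ⟨b, hb0, hb2⟩ : ∃ b : OrthonormalBasis (Fin 3) ℝ E3, b 0 = -m ∧ b 2 = w := by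
    have hor : Orthonormal ℝ (({0, 2} : Set (Fin 3)).restrict ![-m, 0, w]) := by
      constructor
      · rintro ⟨i, hi⟩
        simp only [Set.mem_insert_iff, Set.mem_singleton_iff] at hi
        rcases hi with rfl | rfl
        · change ‖-m‖ = 1
          rw [norm_neg, hm]
        · change ‖w‖ = 1
          exact hw
      · rintro ⟨i, hi⟩ ⟨j, hj⟩ hij
        have hij' : i ≠ j := fun h => hij (Subtype.ext h)
        simp only [Set.mem_insert_iff, Set.mem_singleton_iff] at hi hj
        rcases hi with rfl | rfl <;> rcases hj with rfl | rfl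
        · exact absurd rfl hij'
        · change ⟪-m, w⟫ = 0
          rw [inner_neg_left, real_inner_comm, hwm, neg_zero]
        · change ⟪w, -m⟫ = 0
          rw [inner_neg_right, hwm, neg_zero]
        · exact absurd rfl hij'
    obtain ⟨b, hb⟩ := hor.exists_orthonormalBasis_extension_of_card_eq (by simp)
    exact ⟨b, by simpa using hb 0 (by simp), by simpa using hb 2 (by simp)⟩
  set x : Fin n → ℝ := fun i => ⟪b 0, p i⟫ with hx
  set y : Fin n → ℝ := fun i => ⟪b 1, p i⟫ with hy
  set z : Fin n → ℝ := fun i => ⟪b 2, p i⟫ with hz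
  have hin : ∀ u v : E3, ⟪u, v⟫ = ⟪b 0, u⟫ * ⟪b 0, v⟫ + ⟪b 1, u⟫ * ⟪b 1, v⟫ +
      ⟪b 2, u⟫ * ⟪b 2, v⟫ := by
    intro u v
    rw [← b.sum_inner_mul_inner u v, Fin.sum_univ_three, real_inner_comm (b 0) u,
      real_inner_comm (b 1) u, real_inner_comm (b 2) u]
  have hpp : ∀ i j, ⟪p i, p j⟫ = x i * x j + y i * y j + z i * z j := fun i j => hin _ _
  have h1 : ∀ i, x i ^ 2 + y i ^ 2 + z i ^ 2 = 1 := by
    intro i
    have := hpp i i
    rw [real_inner_self_eq_norm_sq, h.1 i] at this
    nlinarith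
  set c : Fin n → ℂ := fun i => ⟨x i, y i⟩ with hc
  set ρ : Fin n → ℝ := fun i => ‖c i‖ with hρ
  set φ : Fin n → ℝ := fun i => (c i).arg with hφ
  have hxρ : ∀ i, x i = ρ i * Real.cos (φ i) := by
    intro i
    have := Complex.norm_mul_cos_arg (c i)
    exact this.symm
  have hyρ : ∀ i, y i = ρ i * Real.sin (φ i) := by
    intro i
    have := Complex.norm_mul_sin_arg (c i)
    exact this.symm
  have hρ2 : ∀ i, ρ i ^ 2 = x i ^ 2 + y i ^ 2 := by
    intro i
    rw [hxρ i, hyρ i]
    have := Real.sin_sq_add_cos_sq (φ i)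
    linear_combination (-(ρ i) ^ 2) * this
  have hρ0 : ∀ i, 0 ≤ ρ i := fun i => norm_nonneg _
  have hzρ : ∀ i, z i ^ 2 + ρ i ^ 2 = 1 := by
    intro i; rw [hρ2 i]; linarith [h1 i]
  -- the meaning of the hypothesis in coordinates
  have hco : ∀ i j, i ≠ j → dist (p i) (p j) = δ → ∀ s t : ℝ, 0 ≤ s → 0 ≤ t → 0 < s + t →
      s * y i + t * y j = 0 → 0 < s * x i + t * x j := by
    intro i j hij hd s t hs ht hst hyy
    by_contra hcon
    push Not at hcon
    refine hno i j hij hd s t ⟪w, s • p i + t • p j⟫ (-(s * x i + t * x j)) hs ht hst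
      (by linarith) ?_
    have e := b.sum_repr' (s • p i + t • p j)
    rw [Fin.sum_univ_three] at e
    have e0 : ⟪b 0, s • p i + t • p j⟫ = s * x i + t * x j := by
      rw [inner_add_right, real_inner_smul_right, real_inner_smul_right]
    have e1 : ⟪b 1, s • p i + t • p j⟫ = 0 := by
      rw [inner_add_right, real_inner_smul_right, real_inner_smul_right]; exact hyy
    rw [e0, e1, hb0, hb2] at e
    refine e.symm.trans ?_
    rw [zero_smul, add_zero, smul_neg, neg_smul, add_comm]
  have hact : ∀ i j, i ≠ j → dist (p i) (p j) = δ → 0 < ρ i ∧ φ i < Real.pi := by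
    intro i j hij hd
    have h3 := hco i j hij hd 1 0 zero_le_one le_rfl (by norm_num)
    simp only [one_mul, zero_mul, add_zero] at h3
    have hne : ρ i ≠ 0 := by
      intro h0
      have hx0 : x i = 0 := by rw [hxρ i, h0, zero_mul]
      have hy0 : y i = 0 := by rw [hyρ i, h0, zero_mul]
      have := h3 hy0
      linarith
    have hpos := lt_of_le_of_ne (hρ0 i) (Ne.symm hne)
    refine ⟨hpos, ?_⟩
    rcases (Complex.arg_le_pi (c i)).lt_or_eq with h4 | h4
    · exact h4
    · exfalso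
      have h5 : φ i = Real.pi := h4
      have hy0 : y i = 0 := by rw [hyρ i, h5, Real.sin_pi, mul_zero]
      have hx0 : x i = -ρ i := by rw [hxρ i, h5, Real.cos_pi]; ring
      have := h3 hy0
      linarith
  have hlow : ∀ i, -Real.pi < φ i := fun i => Complex.neg_pi_lt_arg (c i)
  have hdiff1 : ∀ i j, i ≠ j → dist (p i) (p j) = δ → φ j - φ i < Real.pi := by
    intro i j hij hd
    by_contra hcon
    push Not at hcon
    obtain ⟨hi1, hi2⟩ := hact i j hij hd
    obtain ⟨hj1, hj2⟩ := hact j i hij.symm (by rw [dist_comm]; exact hd)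
    have hil := hlow i
    have hi0 : φ i < 0 := by linarith
    have hj0 : 0 < φ j := by linarith
    have hsi : Real.sin (φ i) < 0 := Real.sin_neg_of_neg_of_neg_pi_lt hi0 hil
    have hsj : 0 < Real.sin (φ j) := Real.sin_pos_of_pos_of_lt_pi hj0 hj2
    have h3 := hco i j hij hd (ρ j * Real.sin (φ j)) (-(ρ i * Real.sin (φ i)))
      (by positivity) (by nlinarith) (by nlinarith [mul_pos hj1 hsj, mul_neg_of_pos_of_neg hi1 hsi])
      (by rw [hyρ i, hyρ j]; ring)
    have h4 : Real.sin (φ j - φ i) ≤ 0 := by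
      have h5 : 0 ≤ Real.sin (φ j - φ i - Real.pi) :=
        Real.sin_nonneg_of_nonneg_of_le_pi (by linarith) (by linarith)
      rw [Real.sin_sub_pi] at h5
      linarith
    rw [Real.sin_sub] at h4
    rw [hxρ i, hxρ j] at h3
    have h5 : ρ j * Real.sin (φ j) * (ρ i * Real.cos (φ i)) +
        -(ρ i * Real.sin (φ i)) * (ρ j * Real.cos (φ j)) =
        (ρ i * ρ j) * (Real.sin (φ j) * Real.cos (φ i) - Real.cos (φ j) * Real.sin (φ i)) := by
      ring
    rw [h5] at h3
    have h6 : 0 ≤ ρ i * ρ j := by positivity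
    nlinarith
  have hdiff : ∀ i j, i ≠ j → dist (p i) (p j) = δ → |φ j - φ i| < Real.pi := by
    intro i j hij hd
    rw [abs_lt]
    have h3 := hdiff1 i j hij hd
    have h4 := hdiff1 j i hij.symm (by rw [dist_comm]; exact hd)
    constructor <;> linarith
  -- the two parts of the motion
  set A : Fin n → Fin n → ℝ := fun i j =>
    φ j * (x j * y i - y j * x i) + φ i * (x i * y j - y i * x j) with hA
  set B : Fin n → Fin n → ℝ := fun i j =>
    z j / ρ j * (z i - z j * ⟪p i, p j⟫) + z i / ρ i * (z j - z i * ⟪p i, p j⟫) with hB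
  have hAB : ∀ i j, i ≠ j → dist (p i) (p j) = δ → A i j < 0 ∨ (A i j = 0 ∧ B i j < 0) := by
    intro i j hij hd
    obtain ⟨hi1, _⟩ := hact i j hij hd
    obtain ⟨hj1, _⟩ := hact j i hij.symm (by rw [dist_comm]; exact hd)
    have hA1 : A i j = -(ρ i * ρ j) * ((φ j - φ i) * Real.sin (φ j - φ i)) := by
      simp only [hA]
      rw [hxρ i, hxρ j, hyρ i, hyρ j, Real.sin_sub]
      ring
    by_cases he : φ j - φ i = 0
    · right
      refine ⟨by rw [hA1, he]; ring, ?_⟩
      have hee : φ j = φ i := by linarith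
      have hxx : x i * x j + y i * y j = ρ i * ρ j := by
        rw [hxρ i, hxρ j, hyρ i, hyρ j, hee]
        have := Real.sin_sq_add_cos_sq (φ i)
        linear_combination (ρ i * ρ j) * this
      have hcc : ⟪p i, p j⟫ = z i * z j + ρ i * ρ j := by rw [hpp i j, ← hxx]; ring
      have hzz : z i ≠ z j := by
        intro hzz
        have h4 : ρ i = ρ j := by
          have h5 := hzρ i
          have h6 := hzρ j
          rw [hzz] at h5
          have h7 : ρ i ^ 2 = ρ j ^ 2 := by linarith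
          exact (sq_eq_sq₀ (hρ0 i) (hρ0 j)).mp h7
        have h8 : ⟪p i, p j⟫ = 1 := by
          rw [hcc, hzz, h4]; nlinarith [hzρ j]
        have h9 : ‖p i - p j‖ ^ 2 = 0 := by
          rw [norm_sub_sq_real, h.1 i, h.1 j, h8]; norm_num
        rw [← dist_eq_norm, hd] at h9
        have : 0 < δ ^ 2 := by positivity
        linarith
      simp only [hB]
      rw [hcc]
      exact half_B hi1 hj1 (hzρ i) (hzρ j) hzz
    · left
      have h3 := half_sin he (hdiff i j hij hd)
      rw [hA1]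
      have h4 : 0 < ρ i * ρ j := by positivity
      nlinarith
  obtain ⟨η, hη⟩ : ∃ η : ℝ, ∀ i j, i ≠ j → dist (p i) (p j) = δ → A i j + η * B i j < 0 := by
    have hev : ∀ᶠ η in 𝓝[>] (0:ℝ), ∀ i j, i ≠ j → dist (p i) (p j) = δ →
        A i j + η * B i j < 0 := by
      rw [Filter.eventually_all]
      intro i
      rw [Filter.eventually_all]
      intro j
      by_cases hij : i ≠ j ∧ dist (p i) (p j) = δ
      · rcases hAB i j hij.1 hij.2 with h3 | ⟨h3, h4⟩
        · have hcont : Continuous (fun η : ℝ => A i j + η * B i j) := by fun_prop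
          have h5 : ∀ᶠ η in 𝓝 (0:ℝ), A i j + η * B i j < 0 :=
            hcont.continuousAt.eventually_lt continuousAt_const (by simpa using h3)
          filter_upwards [mem_nhdsWithin_of_mem_nhds h5] with η h6 _ _ using h6
        · filter_upwards [self_mem_nhdsWithin] with η h6 _ _
          rw [h3, zero_add]
          exact mul_neg_of_pos_of_neg h6 h4
      · refine Filter.Eventually.of_forall fun η h3 h4 => absurd ⟨h3, h4⟩ hij
    exact hev.exists
  refine ⟨fun i => φ i • ((x i) • b 1 - (y i) • b 0) +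
    (η * (z i / ρ i)) • (b 2 - (z i) • p i), ?_, ?_⟩
  · intro i
    have e0 : ⟪p i, b 0⟫ = x i := real_inner_comm _ _
    have e1 : ⟪p i, b 1⟫ = y i := real_inner_comm _ _
    have e2 : ⟪p i, b 2⟫ = z i := real_inner_comm _ _
    rw [inner_add_right, real_inner_smul_right, real_inner_smul_right, inner_sub_right,
      inner_sub_right, real_inner_smul_right, real_inner_smul_right, real_inner_smul_right,
      e0, e1, e2, real_inner_self_eq_norm_sq, h.1 i]
    ring
  · intro i j hij hd
    have e0 : ∀ k, ⟪p k, b 0⟫ = x k := fun k => real_inner_comm _ _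
    have e1 : ∀ k, ⟪p k, b 1⟫ = y k := fun k => real_inner_comm _ _
    have e2 : ∀ k, ⟪p k, b 2⟫ = z k := fun k => real_inner_comm _ _
    have e3 : ⟪p j, p i⟫ = ⟪p i, p j⟫ := real_inner_comm _ _
    have h3 := hη i j hij hd
    simp only [inner_add_right, real_inner_smul_right, inner_sub_right, e0, e1, e2, e3]
    calc _ = A i j + η * B i j := by simp only [hA, hB]; ring
      _ < 0 := h3

end Pool.Agent.HC
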