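import Pool.Agent.Lib.MP_8bd676_co_HC.Defs

/-! MP_8bd676_co, project HC: infinitesimal motions. -/

set_option autoImplicit false

open scoped RealInnerProductSpace

namespace Pool.Agent.HC

/-- The norm of the moved point. -/
private noncomputable def moveA (a t : ℝ) : ℝ := √(1 + t ^ 2 * a)

private lemma moveA_pos {a : ℝ} (ha : 0 ≤ a) (t : ℝ) : 0 < moveA a t :=
  Real.sqrt_pos.2 (by positivity)

private lemma moveA_zero (a : ℝ) : moveA a 0 = 1 := by simp [moveA]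

private lemma moveA_cont (a : ℝ) : Continuous (moveA a) := by
  unfold moveA
  fun_prop

private lemma moveA_deriv (a : ℝ) : HasDerivAt (moveA a) 0 0 := by
  have h1 : HasDerivAt (fun t : ℝ => 1 + t ^ 2 * a) 0 0 := by
    have h := ((hasDerivAt_id (0 : ℝ)).pow 2).mul_const a
    have h2 := h.const_add 1
    simpa using h2
  have h3 := (h1.sqrt (by simp)).congr_deriv (zero_div _)
  exact h3

private lemma moveA_norm {p v : E3} (hp : ‖p‖ = 1) (hv : ⟪p, v⟫ = 0) (t : ℝ) :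
    ‖p + t • v‖ = moveA (‖v‖ ^ 2) t := by
  rw [moveA, eq_comm, Real.sqrt_eq_iff_mul_self_eq_of_pos]
  · have h := norm_add_sq_real p (t • v)
    rw [inner_smul_right, hv, hp, norm_smul, mul_pow, Real.norm_eq_abs, sq_abs] at h
    nlinarith [h]
  · rw [norm_pos_iff]
    intro h0
    have h : ⟪p, p + t • v⟫ = 0 := by rw [h0, inner_zero_right]
    rw [inner_add_right, inner_smul_right, hv, real_inner_self_eq_norm_sq, hp] at h
    norm_num at h

/-- The moved point. -/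
private noncomputable def moveQ (p v : E3) (t : ℝ) : E3 :=
  (moveA (‖v‖ ^ 2) t)⁻¹ • (p + t • v)

private lemma moveQ_zero (p v : E3) : moveQ p v 0 = p := by
  simp [moveQ, moveA_zero]

private lemma moveQ_norm {p v : E3} (hp : ‖p‖ = 1) (hv : ⟪p, v⟫ = 0) (t : ℝ) :
    ‖moveQ p v t‖ = 1 := by
  have h := moveA_pos (sq_nonneg ‖v‖) t
  rw [moveQ, norm_smul, moveA_norm hp hv, norm_inv, Real.norm_eq_abs, abs_of_pos h]
  exact inv_mul_cancel₀ h.ne'

private lemma moveQ_cont (p v : E3) : Continuous (moveQ p v) := by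
  unfold moveQ
  refine Continuous.smul ((moveA_cont _).inv₀ fun t => (moveA_pos (sq_nonneg _) t).ne') ?_
  fun_prop

private lemma moveQ_inner (p v p' v' : E3) (t : ℝ) :
    ⟪moveQ p v t, moveQ p' v' t⟫ =
      (⟪p, p'⟫ + t * (⟪p, v'⟫ + ⟪p', v⟫) + t ^ 2 * ⟪v, v'⟫) *
        (moveA (‖v‖ ^ 2) t * moveA (‖v'‖ ^ 2) t)⁻¹ := by
  rw [moveQ, moveQ, real_inner_smul_left, real_inner_smul_right, inner_add_left,
    inner_add_right, inner_add_right, real_inner_smul_left, real_inner_smul_left,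
    real_inner_smul_right, real_inner_smul_right, real_inner_comm v p', mul_inv]
  ring

private lemma moveQ_deriv (p v p' v' : E3) :
    HasDerivAt (fun t => ⟪moveQ p v t, moveQ p' v' t⟫) (⟪p, v'⟫ + ⟪p', v⟫) 0 := by
  have h1 : HasDerivAt (fun t : ℝ => ⟪p, p'⟫ + t * (⟪p, v'⟫ + ⟪p', v⟫) + t ^ 2 * ⟪v, v'⟫)
      (⟪p, v'⟫ + ⟪p', v⟫) 0 := by
    have ha := ((hasDerivAt_id (0 : ℝ)).mul_const (⟪p, v'⟫ + ⟪p', v⟫)).const_add ⟪p, p'⟫
    have hb := ((hasDerivAt_id (0 : ℝ)).pow 2).mul_const ⟪v, v'⟫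
    exact (ha.add hb).congr_deriv (by simp)
  have h2 := (moveA_deriv (‖v‖ ^ 2)).mul (moveA_deriv (‖v'‖ ^ 2))
  have h3 := h2.inv (by simp [moveA_zero])
  have h4 := h1.mul h3
  simp only [moveQ_inner]
  exact h4.congr_deriv (by simp [moveA_zero])

private lemma moveQ_lt {p v p' v' : E3} (h : ⟪p, v'⟫ + ⟪p', v⟫ < 0) :
    ∀ᶠ t in nhdsWithin (0 : ℝ) (Set.Ioi 0), ⟪moveQ p v t, moveQ p' v' t⟫ < ⟪p, p'⟫ := by
  have h1 := (hasDerivAt_iff_tendsto_slope.1 (moveQ_deriv p v p' v')).mono_left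
    (nhdsWithin_mono (0 : ℝ) (fun t (ht : t ∈ Set.Ioi (0 : ℝ)) => (ne_of_gt ht : t ≠ 0)))
  filter_upwards [h1.eventually (gt_mem_nhds h), self_mem_nhdsWithin] with t ht ht0
  rw [slope_def_field, moveQ_zero, moveQ_zero, sub_zero] at ht
  have ht1 : (0 : ℝ) < t := ht0
  have h2 := (div_neg_iff.1 ht).resolve_left (fun h => absurd h.2 (not_lt.2 ht1.le))
  linarith [h2.1]

private lemma move_dist {p q : E3} (hp : ‖p‖ = 1) (hq : ‖q‖ = 1) :
    dist p q ^ 2 = 2 - 2 * ⟪p, q⟫ := by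
  rw [dist_eq_norm, norm_sub_sq_real, hp, hq]
  ring

/-- An infinitesimal motion that increases all minimal distances gives a better code. -/
theorem move {n : ℕ} {δ : ℝ} {p : Fin n → E3} (h : IsCode δ p) (v : Fin n → E3)
    (hv : ∀ i, ⟪p i, v i⟫ = 0)
    (hm : ∀ i j, i ≠ j → dist (p i) (p j) = δ → ⟪p i, v j⟫ + ⟪p j, v i⟫ < 0) :
    ∃ δ' : ℝ, δ < δ' ∧ ∃ q : Fin n → E3, IsCode δ' q := by
  have key : ∀ i j, i ≠ j → ∀ᶠ t in nhdsWithin (0 : ℝ) (Set.Ioi 0),
      δ < dist (moveQ (p i) (v i) t) (moveQ (p j) (v j) t) := by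
    intro i j hij
    rcases (h.2 i j hij).lt_or_eq with hlt | heq
    · have hc : Continuous fun t => dist (moveQ (p i) (v i) t) (moveQ (p j) (v j) t) :=
        (moveQ_cont _ _).dist (moveQ_cont _ _)
      have h0 := hc.tendsto 0
      rw [moveQ_zero, moveQ_zero] at h0
      exact (h0.mono_left nhdsWithin_le_nhds).eventually (lt_mem_nhds hlt)
    · filter_upwards [moveQ_lt (hm i j hij heq.symm)] with t ht
      refine lt_of_pow_lt_pow_left₀ 2 dist_nonneg ?_
      rw [move_dist (moveQ_norm (h.1 i) (hv i) t) (moveQ_norm (h.1 j) (hv j) t), heq,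
        move_dist (h.1 i) (h.1 j)]
      linarith
  have key2 : ∀ᶠ t in nhdsWithin (0 : ℝ) (Set.Ioi 0), ∀ i j, i ≠ j →
      δ < dist (moveQ (p i) (v i) t) (moveQ (p j) (v j) t) := by
    rw [Filter.eventually_all]
    intro i
    rw [Filter.eventually_all]
    intro j
    rw [Filter.eventually_imp_distrib_left]
    exact key i j
  obtain ⟨t, ht⟩ := key2.exists
  by_cases hn : ∃ i j : Fin n, i ≠ j
  · obtain ⟨i₀, j₀, h₀⟩ := hn
    obtain ⟨x, hx, hmin⟩ := Finset.exists_min_image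
      (Finset.univ.filter fun x : Fin n × Fin n => x.1 ≠ x.2)
      (fun x => dist (moveQ (p x.1) (v x.1) t) (moveQ (p x.2) (v x.2) t))
      ⟨(i₀, j₀), by simpa using h₀⟩
    rw [Finset.mem_filter] at hx
    refine ⟨_, ht x.1 x.2 hx.2, fun i => moveQ (p i) (v i) t,
      fun i => moveQ_norm (h.1 i) (hv i) t, fun i j hij => ?_⟩
    exact hmin (i, j) (by simpa using hij)
  · exact ⟨δ + 1, by linarith, p, h.1, fun i j hij => absurd ⟨i, j, hij⟩ hn⟩

end Pool.Agent.HC
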