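import Pool.Agent.Lib.MP_8bd676_co_HC.Pack
import Pool.Agent.Lib.MP_8bd676_co_HC.Avg
import Pool.Agent.Lib.MP_8bd676_co_HC.Attain
import Pool.Agent.Lib.MP_8bd676_co_HC.Move
import Pool.Agent.Lib.MP_8bd676_co_HC.Half

/-! MP_8bd676_co, project HC: main theorems. -/

set_option autoImplicit false

open scoped RealInnerProductSpace

namespace Pool.Agent.HC

/-- Every closed half great circle meets a minimal edge of every optimal configuration. -/
theorem half_circle {n : ℕ} (hn : 3 ≤ n) {p : Fin n → E3} (h : IsCode (sep n) p) {w m : E3}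
    (hw : ‖w‖ = 1) (hm : ‖m‖ = 1) (hwm : ⟪w, m⟫ = 0) :
    ∃ i j, i ≠ j ∧ dist (p i) (p j) = sep n ∧ ∃ a b α β : ℝ, 0 ≤ a ∧ 0 ≤ b ∧ 0 < a + b ∧ 0 ≤ β ∧
      a • p i + b • p j = α • w + β • m := by
  by_contra hcon
  push Not at hcon
  obtain ⟨v, hv1, hv2⟩ := half_field (sep_pos (by omega)) h hw hm hwm
    (fun i j hij hd a b α β ha hb hab hβ => hcon i j hij hd a b α β ha hb hab hβ)
  obtain ⟨δ', hδ', q, hq⟩ := move h v hv1 hv2
  have := le_sep (by omega) hq
  linarith

/-- The motion that separates two open hemispheres. -/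
theorem hemi_field {n : ℕ} {δ : ℝ} (hδ : 0 < δ) {p : Fin n → E3} (h : IsCode δ p) {N : E3}
    (hN : ‖N‖ = 1)
    (hno : ∀ i j, i ≠ j → dist (p i) (p j) = δ → 0 < ⟪p i, N⟫ * ⟪p j, N⟫) :
    ∃ v : Fin n → E3, (∀ i, ⟪p i, v i⟫ = 0) ∧
      ∀ i j, i ≠ j → dist (p i) (p j) = δ → ⟪p i, v j⟫ + ⟪p j, v i⟫ < 0 := by
  have hsq : ∀ i j, dist (p i) (p j) = δ → ⟪p i, p j⟫ = 1 - δ ^ 2 / 2 := by
    intro i j hd
    have h1 : ‖p i - p j‖ ^ 2 = δ ^ 2 := by rw [← dist_eq_norm, hd]
    rw [norm_sub_sq_real, h.1 i, h.1 j] at h1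
    linarith
  have key : ∀ i, ⟪p i, N - ⟪p i, N⟫ • p i⟫ = 0 := by
    intro i
    rw [inner_sub_right, real_inner_smul_right, real_inner_self_eq_norm_sq, h.1 i]
    ring
  refine ⟨fun i => (-SignType.sign (⟪p i, N⟫) : ℝ) • (N - ⟪p i, N⟫ • p i), ?_, ?_⟩
  · intro i
    rw [real_inner_smul_right, key i, mul_zero]
  · intro i j hij hd
    have h1 := hno i j hij hd
    have h2 := hsq i j hd
    have h3 : ⟪p j, p i⟫ = 1 - δ ^ 2 / 2 := by rw [real_inner_comm]; exact h2
    have h4 : (0:ℝ) < δ ^ 2 / 2 := by positivity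
    rw [real_inner_smul_right, real_inner_smul_right, inner_sub_right, inner_sub_right,
      real_inner_smul_right, real_inner_smul_right, h2, h3]
    rcases pos_and_pos_or_neg_and_neg_of_mul_pos h1 with ⟨h5, h6⟩ | ⟨h5, h6⟩
    · rw [sign_pos h5, sign_pos h6]
      simp only [SignType.coe_one]
      nlinarith
    · rw [sign_neg h5, sign_neg h6]
      simp only [SignType.coe_neg_one]
      nlinarith

/-- `d(n) < d(m)` for `m ≤ n - 2 √n`. -/
theorem sep_lt {m n : ℕ} (hm : 2 ≤ m) (hmn : (m : ℝ) + 2 * √n ≤ n) (hlt : m < n) :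
    sep n < sep m := by
  obtain ⟨p, hp⟩ := exists_opt (n := n) (by omega)
  have hpos := sep_pos (n := n) (by omega)
  have hle2 := hp.le_two (by omega)
  have hpack := pack hpos.le hle2 hp
  obtain ⟨N, hN, hcard⟩ := exists_band p hp.1 hpos.le
  set R := Finset.univ.filter (fun i => 0 ≤ ⟪p i, N⟫ ∧ ⟪p i, N⟫ ≤ sep n) with hR
  have hn0 : (0:ℝ) < n := by
    have : 0 < n := by omega
    exact_mod_cast this
  have hs : sep n * √n ≤ 4 := by
    have h1 : (sep n * √n) ^ 2 ≤ 4 ^ 2 := by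
      rw [mul_pow, Real.sq_sqrt hn0.le]
      linarith
    exact abs_le_of_sq_le_sq' h1 (by norm_num) |>.2
  have hcard2 : (R.card : ℝ) ≤ 2 * √n := by
    have h1 : (n : ℝ) = √n * √n := (Real.mul_self_sqrt hn0.le).symm
    have h2 : (0:ℝ) ≤ √n := Real.sqrt_nonneg _
    calc (R.card : ℝ) ≤ n * sep n / 2 := hcard
      _ = (sep n * √n) * √n / 2 := by rw [mul_assoc, ← h1]; ring
      _ ≤ 4 * √n / 2 := by gcongr
      _ = 2 * √n := by ring
  have hcomp : m ≤ (Rᶜ).card := by
    have h1 : (Rᶜ).card = n - R.card := by rw [Finset.card_compl, Fintype.card_fin]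
    have h2 : R.card ≤ n := by
      have := Finset.card_le_univ R
      rwa [Fintype.card_fin] at this
    have h3 : (m : ℝ) ≤ ((n - R.card : ℕ) : ℝ) := by
      rw [Nat.cast_sub h2]
      linarith
    rw [h1]
    exact_mod_cast h3
  obtain ⟨T, hTs, hTc⟩ := Finset.exists_subset_card_eq hcomp
  set e := T.orderEmbOfFin hTc
  have heT : ∀ i, e i ∉ R := by
    intro i
    have h1 : e i ∈ T := Finset.orderEmbOfFin_mem T hTc i
    exact Finset.mem_compl.mp (hTs h1)
  set q : Fin m → E3 := fun i => p (e i) with hq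
  have hqc : IsCode (sep n) q :=
    ⟨fun i => hp.1 _, fun i j hij => hp.2 _ _ (fun h => hij (e.injective h))⟩
  obtain ⟨v, hv1, hv2⟩ := hemi_field hpos hqc hN (by
    intro i j hij hd
    have hi := heT i
    have hj := heT j
    rw [hR, Finset.mem_filter] at hi hj
    simp only [Finset.mem_univ, true_and, not_and, not_le] at hi hj
    have hd' : ‖q i - q j‖ = sep n := by rw [← dist_eq_norm]; exact hd
    have h1 : |⟪q i - q j, N⟫| ≤ sep n := by
      have := abs_real_inner_le_norm (q i - q j) N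
      rwa [hN, mul_one, hd'] at this
    rw [inner_sub_left, abs_le] at h1
    rcases le_or_gt 0 ⟪q i, N⟫ with h2 | h2
    · have h3 := hi h2
      rcases le_or_gt 0 ⟪q j, N⟫ with h4 | h4
      · have h5 := hj h4
        exact mul_pos (by linarith) (by linarith)
      · exfalso; have := h1.2; linarith
    · rcases le_or_gt 0 ⟪q j, N⟫ with h4 | h4
      · have h5 := hj h4
        exfalso; have := h1.1; linarith
      · exact mul_pos_of_neg_of_neg h2 h4)
  obtain ⟨δ', hδ', r, hr⟩ := move hqc v hv1 hv2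
  have := le_sep hm hr
  linarith

end Pool.Agent.HC
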