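import Pool.Agent.Lib.MP_8bd676_co_HC.Vol

/-! MP_8bd676_co, project HC: the packing bound. -/

set_option autoImplicit false

open MeasureTheory
open scoped RealInnerProductSpace

namespace Pool.Agent.HC

/-- The packing bound `n d² ≤ 16`. -/
theorem pack {n : ℕ} {p : Fin n → E3} {d : ℝ} (hd : 0 ≤ d) (hd2 : d ≤ 2) (h : IsCode d p) :
    (n : ℝ) * d ^ 2 ≤ 16 := by
  set c : ℝ := √(1 - d ^ 2 / 4) with hc
  have hc0 : 0 ≤ c := Real.sqrt_nonneg _
  have hcc : c ^ 2 = 1 - d ^ 2 / 4 := Real.sq_sqrt (by nlinarith)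
  have hc1 : c ≤ 1 := by
    rw [hc, Real.sqrt_le_left zero_le_one]
    nlinarith
  set K : Fin n → Set E3 := fun i => {x : E3 | ‖x‖ < 1 ∧ c * ‖x‖ < ⟪p i, x⟫} with hK
  have hdisj : Pairwise (Function.onFun Disjoint K) := by
    intro i j hij
    rw [Function.onFun, Set.disjoint_left]
    rintro x ⟨_, h1⟩ ⟨_, h2⟩
    have h3 : 2 * c * ‖x‖ < ‖p i + p j‖ * ‖x‖ := by
      have h4 : ⟪p i + p j, x⟫ ≤ ‖p i + p j‖ * ‖x‖ := real_inner_le_norm _ _
      rw [inner_add_left] at h4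
      linarith
    have h5 : 2 * c < ‖p i + p j‖ := lt_of_mul_lt_mul_right h3 (norm_nonneg x)
    have h6 : ‖p i + p j‖ ^ 2 + ‖p i - p j‖ ^ 2 = 4 := by
      rw [norm_add_sq_real, norm_sub_sq_real, h.1 i, h.1 j]; ring
    have h7 := h.2 i j hij
    rw [dist_eq_norm] at h7
    nlinarith [norm_nonneg (p i + p j), norm_nonneg (p i - p j)]
  have hmeas : ∀ i, MeasurableSet (K i) := by
    intro i
    have h1 : MeasurableSet {x : E3 | ‖x‖ < 1} := measurableSet_lt (by fun_prop) (by fun_prop)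
    have h2 : MeasurableSet {x : E3 | c * ‖x‖ < ⟪p i, x⟫} :=
      measurableSet_lt (by fun_prop) (by fun_prop)
    exact h1.inter h2
  have hvol : volume (⋃ i, K i) = ∑ i, volume (K i) := by
    rw [measure_iUnion hdisj hmeas, tsum_fintype]
  have hle : volume (⋃ i, K i) ≤ volume (Metric.ball (0 : E3) 1) := by
    apply measure_mono
    rw [Set.iUnion_subset_iff]
    intro i x hx
    rw [mem_ball_zero_iff]
    exact hx.1
  have hball : volume (Metric.ball (0 : E3) 1) = ENNReal.ofReal (4 * Real.pi / 3) := by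
    rw [EuclideanSpace.volume_ball_fin_three]
    rw [ENNReal.ofReal_one, one_pow, one_mul]
    congr 1
    ring
  rw [hvol, hball] at hle
  have hs : ∀ i, volume (K i) = ENNReal.ofReal (2 * Real.pi / 3 * (1 - c)) :=
    fun i => cone_vol (h.1 i) hc0 hc1
  simp only [hs, Finset.sum_const, Finset.card_univ, Fintype.card_fin, nsmul_eq_mul] at hle
  have hc1' : 0 ≤ 1 - c := by linarith
  rw [← ENNReal.ofReal_natCast, ← ENNReal.ofReal_mul (Nat.cast_nonneg n),
    ENNReal.ofReal_le_ofReal_iff (by positivity)] at hle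
  have h1 : (n : ℝ) * (1 - c) ≤ 2 := by
    have h2 : (n : ℝ) * (1 - c) * (2 * Real.pi / 3) ≤ 2 * (2 * Real.pi / 3) := by
      nlinarith
    exact le_of_mul_le_mul_right h2 (by positivity)
  have h2 : d ^ 2 = 4 * (1 - c) * (1 + c) := by linear_combination 4 * hcc
  have h3 : (n : ℝ) * d ^ 2 = 4 * (n * (1 - c)) * (1 + c) := by rw [h2]; ring
  have hn : (0:ℝ) ≤ n := Nat.cast_nonneg n
  rw [h3]
  nlinarith [mul_nonneg hn hc1']

end Pool.Agent.HC
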