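import Pool.Agent.Lib.MP_8bd676_co_HC.Defs

/-! MP_8bd676_co, project HC: the volume of a circular cone. -/

set_option autoImplicit false

open MeasureTheory
open scoped RealInnerProductSpace

namespace Pool.Agent.HC

private lemma vol_disc {R : ℝ} (hR : 0 ≤ R) :
    volume {q : ℝ × ℝ | q.1 ^ 2 + q.2 ^ 2 < R} = ENNReal.ofReal (Real.pi * R) := by
  have h1 := Complex.volume_preserving_equiv_real_prod
  have hms : MeasurableSet {q : ℝ × ℝ | q.1 ^ 2 + q.2 ^ 2 < R} :=
    measurableSet_lt (by fun_prop) (by fun_prop)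
  rw [← h1.measure_preimage hms.nullMeasurableSet]
  have e : Complex.measurableEquivRealProd ⁻¹' {q : ℝ × ℝ | q.1 ^ 2 + q.2 ^ 2 < R} =
      Metric.ball (0 : ℂ) (√R) := by
    ext z
    rw [Set.mem_preimage, mem_ball_zero_iff, Real.lt_sqrt (norm_nonneg z), Complex.sq_norm,
      Complex.normSq_apply]
    change z.re ^ 2 + z.im ^ 2 < R ↔ _
    rw [sq, sq]
  rw [e, Complex.volume_ball, ← ENNReal.ofReal_pow (Real.sqrt_nonneg _), Real.sq_sqrt hR,
    ENNReal.ofReal_mul Real.pi_pos.le, mul_comm]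
  congr 1
  rw [← ENNReal.ofReal_coe_nnreal, NNReal.coe_real_pi]

private noncomputable def toProd (b : OrthonormalBasis (Fin 3) ℝ E3) (p : E3) : ℝ × (ℝ × ℝ) :=
  (⟪b 0, p⟫, (⟪b 1, p⟫, ⟪b 2, p⟫))

private lemma toProd_preserving (b : OrthonormalBasis (Fin 3) ℝ E3) :
    MeasurePreserving (toProd b) volume volume := by
  have m1 := b.measurePreserving_repr
  have m2 := EuclideanSpace.volume_preserving_symm_measurableEquiv_toLp (Fin 3)
  have m3 := volume_preserving_piFinSuccAbove (fun _ : Fin 3 => ℝ) 0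
  have m4 := (MeasurePreserving.id (volume : Measure ℝ)).prod (volume_preserving_finTwoArrow ℝ)
  have m5 := m4.comp (m3.comp (m2.comp m1))
  have e : toProd b = Prod.map id MeasurableEquiv.finTwoArrow ∘
      (MeasurableEquiv.piFinSuccAbove (fun _ : Fin 3 => ℝ) 0) ∘
      (MeasurableEquiv.toLp 2 (Fin 3 → ℝ)).symm ∘ b.repr := by
    funext p
    simp only [toProd, Function.comp, Prod.map]
    ext
    · simp [MeasurableEquiv.piFinSuccAbove, OrthonormalBasis.repr_apply_apply]
    · simp [MeasurableEquiv.piFinSuccAbove, MeasurableEquiv.finTwoArrow]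
      exact (b.repr_apply_apply p 1).symm
    · simp [MeasurableEquiv.piFinSuccAbove, MeasurableEquiv.finTwoArrow]
      exact (b.repr_apply_apply p 2).symm
  rw [e]
  exact m5

private noncomputable def S (c : ℝ) : Set (ℝ × (ℝ × ℝ)) :=
  {a | a.1 ^ 2 + (a.2.1 ^ 2 + a.2.2 ^ 2) < 1 ∧ c * √(a.1 ^ 2 + (a.2.1 ^ 2 + a.2.2 ^ 2)) < a.1}

private lemma S_meas (c : ℝ) : MeasurableSet (S c) := by
  have h1 : MeasurableSet {a : ℝ × (ℝ × ℝ) | a.1 ^ 2 + (a.2.1 ^ 2 + a.2.2 ^ 2) < 1} :=
    measurableSet_lt (by fun_prop) (by fun_prop)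
  have h2 : MeasurableSet {a : ℝ × (ℝ × ℝ) | c * √(a.1 ^ 2 + (a.2.1 ^ 2 + a.2.2 ^ 2)) < a.1} :=
    measurableSet_lt (by fun_prop) (by fun_prop)
  exact h1.inter h2

private lemma slice {c : ℝ} (h0 : 0 ≤ c) (h1 : c ≤ 1) (z : ℝ) :
    volume (Prod.mk z ⁻¹' S c) =
      (Set.Ioc 0 c).indicator (fun z => ENNReal.ofReal (Real.pi * ((1 - c ^ 2) / c ^ 2 * z ^ 2))) z +
      (Set.Ioc c 1).indicator (fun z => ENNReal.ofReal (Real.pi * (1 - z ^ 2))) z := by
  by_cases hz : 0 < z
  · have hsl : ∀ q : ℝ × ℝ, q ∈ Prod.mk z ⁻¹' S c ↔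
        q.1 ^ 2 + q.2 ^ 2 < 1 - z ^ 2 ∧ c ^ 2 * (q.1 ^ 2 + q.2 ^ 2) < (1 - c ^ 2) * z ^ 2 := by
      intro q
      simp only [S, Set.mem_preimage, Set.mem_setOf_eq]
      constructor
      · rintro ⟨h3, h4⟩
        refine ⟨by linarith, ?_⟩
        have h5 : (c * √(z ^ 2 + (q.1 ^ 2 + q.2 ^ 2))) ^ 2 < z ^ 2 := by
          apply sq_lt_sq' _ h4
          have : 0 ≤ c * √(z ^ 2 + (q.1 ^ 2 + q.2 ^ 2)) := by positivity
          linarith
        rw [mul_pow, Real.sq_sqrt (by positivity)] at h5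
        nlinarith
      · rintro ⟨h3, h4⟩
        refine ⟨by linarith, ?_⟩
        apply lt_of_pow_lt_pow_left₀ 2 hz.le
        rw [mul_pow, Real.sq_sqrt (by positivity)]
        nlinarith
    rcases le_or_gt z c with hzc | hzc
    · have hc : 0 < c := lt_of_lt_of_le hz hzc
      have e : Prod.mk z ⁻¹' S c = {q : ℝ × ℝ | q.1 ^ 2 + q.2 ^ 2 < (1 - c ^ 2) / c ^ 2 * z ^ 2} := by
        ext q
        rw [hsl q, Set.mem_setOf_eq]
        have hc2 : 0 < c ^ 2 := by positivity
        have e1 : (1 - c ^ 2) / c ^ 2 * z ^ 2 = ((1 - c ^ 2) * z ^ 2) / c ^ 2 := by ring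
        rw [e1, lt_div_iff₀ hc2]
        constructor
        · rintro ⟨_, h4⟩; linarith
        · intro h4
          refine ⟨?_, by linarith⟩
          have h6 : z ^ 2 ≤ c ^ 2 := by gcongr
          by_contra hcon
          push Not at hcon
          nlinarith
      rw [e, vol_disc, Set.indicator_of_mem (show z ∈ Set.Ioc 0 c from ⟨hz, hzc⟩),
        Set.indicator_of_notMem (fun h => absurd h.1 (not_lt.mpr hzc)), add_zero]
      have : 0 ≤ 1 - c ^ 2 := by nlinarith
      positivity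
    · rw [Set.indicator_of_notMem (fun h => absurd h.2 (not_le.mpr hzc)), zero_add]
      have hz2 : c ^ 2 < z ^ 2 := by gcongr
      rcases le_or_gt z 1 with hz1 | hz1
      · have e : Prod.mk z ⁻¹' S c = {q : ℝ × ℝ | q.1 ^ 2 + q.2 ^ 2 < 1 - z ^ 2} := by
          ext q
          rw [hsl q, Set.mem_setOf_eq]
          constructor
          · rintro ⟨h3, _⟩; exact h3
          · intro h3
            refine ⟨h3, ?_⟩
            have hq : 0 ≤ q.1 ^ 2 + q.2 ^ 2 := by positivity
            have h5 : c ^ 2 * (q.1 ^ 2 + q.2 ^ 2) ≤ c ^ 2 * (1 - z ^ 2) := by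
              gcongr
            nlinarith
        rw [e, vol_disc (by nlinarith), Set.indicator_of_mem (show z ∈ Set.Ioc c 1 from ⟨hzc, hz1⟩)]
      · rw [Set.indicator_of_notMem (fun h => absurd h.2 (not_le.mpr hz1))]
        have e : Prod.mk z ⁻¹' S c = ∅ := by
          rw [Set.eq_empty_iff_forall_notMem]
          intro q hq
          rw [hsl q] at hq
          have : 0 ≤ q.1 ^ 2 + q.2 ^ 2 := by positivity
          nlinarith [hq.1]
        rw [e, measure_empty]
  · have e : Prod.mk z ⁻¹' S c = ∅ := by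
      rw [Set.eq_empty_iff_forall_notMem]
      intro q hq
      have h3 : 0 ≤ c * √(z ^ 2 + (q.1 ^ 2 + q.2 ^ 2)) := by positivity
      have h4 := hq.2
      simp only at h4
      exact hz (lt_of_le_of_lt h3 h4)
    rw [e, measure_empty, Set.indicator_of_notMem (fun h => hz h.1),
      Set.indicator_of_notMem (fun h => hz (lt_of_le_of_lt h0 h.1)), add_zero]

private lemma vol_S {c : ℝ} (h0 : 0 ≤ c) (h1 : c ≤ 1) :
    volume (S c) = ENNReal.ofReal (2 * Real.pi / 3 * (1 - c)) := by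
  have hc2 : 0 ≤ 1 - c ^ 2 := by nlinarith
  rw [Measure.volume_eq_prod, Measure.prod_apply (S_meas c), lintegral_congr (slice h0 h1),
    lintegral_add_left ((by fun_prop : Measurable (fun z : ℝ =>
      ENNReal.ofReal (Real.pi * ((1 - c ^ 2) / c ^ 2 * z ^ 2)))).indicator measurableSet_Ioc),
    lintegral_indicator measurableSet_Ioc, lintegral_indicator measurableSet_Ioc]
  have i1 : ∫⁻ z in Set.Ioc 0 c, ENNReal.ofReal (Real.pi * ((1 - c ^ 2) / c ^ 2 * z ^ 2)) =
      ENNReal.ofReal (Real.pi * ((1 - c ^ 2) / c ^ 2 * (c ^ 3 / 3))) := by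
    rw [← ofReal_integral_eq_lintegral_ofReal]
    · rw [← intervalIntegral.integral_of_le h0]
      simp only [intervalIntegral.integral_const_mul, integral_pow]
      norm_num
    · exact (Continuous.integrableOn_Icc (by fun_prop)).mono_set Set.Ioc_subset_Icc_self
    · filter_upwards with z
      positivity
  have i2 : ∫⁻ z in Set.Ioc c 1, ENNReal.ofReal (Real.pi * (1 - z ^ 2)) =
      ENNReal.ofReal (Real.pi * (2 / 3 - c + c ^ 3 / 3)) := by
    rw [← ofReal_integral_eq_lintegral_ofReal]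
    · rw [← intervalIntegral.integral_of_le h1]
      rw [intervalIntegral.integral_const_mul, intervalIntegral.integral_sub (by simp)
        ((continuous_pow 2).intervalIntegrable _ _), integral_pow]
      congr 2
      simp
      ring
    · exact (Continuous.integrableOn_Icc (by fun_prop)).mono_set Set.Ioc_subset_Icc_self
    · filter_upwards [ae_restrict_mem measurableSet_Ioc] with z hz
      have hz1 : z ^ 2 ≤ 1 := by
        have h3 : 0 ≤ z := h0.trans hz.1.le
        nlinarith [hz.2]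
      have : 0 ≤ 1 - z ^ 2 := by linarith
      positivity
  rw [i1, i2, ← ENNReal.ofReal_add]
  · congr 1
    rcases h0.lt_or_eq with hc | hc
    · field_simp
      ring
    · subst hc
      simp
      ring
  · positivity
  · have : 0 ≤ 2 / 3 - c + c ^ 3 / 3 := by nlinarith [mul_nonneg (sub_nonneg.mpr h1) (sub_nonneg.mpr h1)]
    positivity

/-- The volume of a circular cone inside the unit ball. -/
theorem cone_vol {u : E3} (hu : ‖u‖ = 1) {c : ℝ} (h0 : 0 ≤ c) (h1 : c ≤ 1) :
    volume {p : E3 | ‖p‖ < 1 ∧ c * ‖p‖ < ⟪u, p⟫} =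
      ENNReal.ofReal (2 * Real.pi / 3 * (1 - c)) := by
  obtain ⟨b, hb⟩ : ∃ b : OrthonormalBasis (Fin 3) ℝ E3, b 0 = u := by
    have hor : Orthonormal ℝ (({0} : Set (Fin 3)).restrict ![u, 0, 0]) := by
      constructor
      · rintro ⟨i, hi⟩
        rw [Set.mem_singleton_iff] at hi; subst hi
        exact hu
      · rintro ⟨i, hi⟩ ⟨j, hj⟩ hij
        rw [Set.mem_singleton_iff] at hi hj; subst hi; subst hj
        exact absurd rfl hij
    obtain ⟨b, hb⟩ := hor.exists_orthonormalBasis_extension_of_card_eq (by simp)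
    exact ⟨b, by simpa using hb 0 (by simp)⟩
  have hnorm : ∀ p : E3, ⟪b 0, p⟫ ^ 2 + (⟪b 1, p⟫ ^ 2 + ⟪b 2, p⟫ ^ 2) = ‖p‖ ^ 2 := by
    intro p
    have h3 := b.sum_inner_mul_inner p p
    rw [Fin.sum_univ_three, real_inner_self_eq_norm_sq] at h3
    rw [real_inner_comm (b 0) p, real_inner_comm (b 1) p, real_inner_comm (b 2) p] at h3
    nlinarith
  have e : {p : E3 | ‖p‖ < 1 ∧ c * ‖p‖ < ⟪u, p⟫} = toProd b ⁻¹' S c := by
    ext p
    simp only [S, toProd, Set.mem_preimage, Set.mem_setOf_eq]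
    rw [hnorm p, Real.sqrt_sq (norm_nonneg p), hb, sq_lt_one_iff₀ (norm_nonneg p)]
  rw [e, (toProd_preserving b).measure_preimage (S_meas c).nullMeasurableSet, vol_S h0 h1]

end Pool.Agent.HC
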